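import Pool.Agent.R754.PG.Count
import Pool.Agent.R754.PG.Conf

/-!
# `𝒩_n(ℝ²)` is not homotopy equivalent to `UConf_n(ℝ²)`

The graphs of the problem need not be connected.  The image of a degenerate embedding of `G` is
connected if and only if `G` is connected (`R754.PG.preconnected_iff`); so the classes with
connected image form an open and closed subset of `𝒩(ℝ²)`.  For every `n ≥ 1` there are classes
with exactly `n` bounded faces and connected image (the circles of radius `1, …, n` and a segment
joining them), and classes with exactly `n` bounded faces and disconnected image (the same graph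
with the origin as an additional isolated vertex).  Hence `𝒩_n(ℝ²)` is not connected, whereas
`UConf_n(ℝ²)` is connected.

Definitions: `Pool/Agent/R754/PG/Defs.lean`.
-/

set_option autoImplicit false

open R754.PG in
/-- For no `n ≥ 1` the space `𝒩_n(ℝ²)` of the classes of degenerate embedded finite graphs in
the plane with exactly `n` bounded faces is homotopy equivalent to the unordered configuration
space `UConf_n(ℝ²)`. -/
theorem Pool.Agent.Results.MP_c05aef_gt.NotHomotopyEquivalent.result (n : ℕ) (hn : 1 ≤ n) :
    ¬ Nonempty (ContinuousMap.HomotopyEquiv (Nn n) (UConf n)) := by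
  obtain ⟨m, rfl⟩ : ∃ m, n = m + 1 := ⟨n - 1, by omega⟩
  obtain ⟨x, hx⟩ := exists_conn m
  obtain ⟨y, hy⟩ := exists_disconn m
  have hchi : Continuous (fun z : Nn (m + 1) => chi z.1) :=
    continuous_chi.comp continuous_subtype_val
  have hx' : chi x.1 = true := by simpa [chi] using hx
  have hy' : chi y.1 = false := by simpa [chi] using hy
  rintro ⟨e⟩
  have := const_of_homotopyEquiv e hchi x y
  rw [hx', hy'] at this
  exact Bool.noConfusion this
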